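import Pool.Agent.Lib.Helper34.NK7

set_option autoImplicit false

open Filter Topology Matrix

namespace Pool.Agent.Results.MP_1e1b94_gt.CohomogeneityOne

/-- The directions of a frame on `I × SU(2)`: `none` is `∂_t`, `some i` (`i : Fin 3`) are tangent to `SU(2)`. -/
abbrev Dir : Type := Option (Fin 3)

/-- The Levi-Civita symbol: `1` on even permutations of `0, 1, 2`, `-1` on odd ones, `0` if two indices agree. -/
noncomputable def levi (i j k : Fin 3) : ℝ :=
  (((j : ℕ) : ℝ) - ((i : ℕ) : ℝ)) * (((k : ℕ) : ℝ) - ((i : ℕ) : ℝ)) * (((k : ℕ) : ℝ) - ((j : ℕ) : ℝ)) / 2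

/-- Left-invariant metrics on `SU(2)` depending on `t`: `h t p q = g(X_p, X_q)` where `X_0, X_1, X_2` are the left-invariant
fields with `[X_p, X_q] = 2 ∑ r, levi p q r • X_r` (the fields `x ↦ x i`, `x ↦ x j`, `x ↦ x k` on the unit quaternions).
`IsMetric t0 h`: `h t` is positive definite for `t > t0` and of class `C²` in `t`; so `g = dt² + h(t)` is a Riemannian metric
on `(t0, ∞) × SU(2)`. -/
structure IsMetric (t0 : ℝ) (h : ℝ → Matrix (Fin 3) (Fin 3) ℝ) : Prop where
  posDef : ∀ t, t0 < t → (h t).PosDef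
  smooth : ∀ p q, ContDiffOn ℝ 2 (fun t => h t p q) (Set.Ioi t0)

/-- `F` is a positively oriented orthonormal frame field of class `C²` of the metrics `h`: the fields
`e_(some i) = ∑ p, F t p i • X_p`, together with `e_none = ∂_t`, are orthonormal for `g = dt² + h(t)`. -/
structure IsFrame (t0 : ℝ) (h F : ℝ → Matrix (Fin 3) (Fin 3) ℝ) : Prop where
  orthonormal : ∀ t, t0 < t → (F t)ᵀ * h t * F t = 1
  oriented : ∀ t, t0 < t → 0 < (F t).det
  smooth : ∀ i j, ContDiffOn ℝ 2 (fun t => F t i j) (Set.Ioi t0)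

/-- The brackets of the frame: `[e_a, e_b] = ∑ d, bracket F t a b d • e_d` (`(F t)⁻¹ k p` is the component of `X_p` in the
direction `e_(some k)`). -/
noncomputable def bracket (F : ℝ → Matrix (Fin 3) (Fin 3) ℝ) (t : ℝ) : Dir → Dir → Dir → ℝ
  | none, some i, some k => ∑ p, (F t)⁻¹ k p * deriv (fun s => F s p i) t
  | some i, none, some k => -∑ p, (F t)⁻¹ k p * deriv (fun s => F s p i) t
  | some i, some j, some k => 2 * ∑ p, ∑ q, ∑ r, levi p q r * F t p i * F t q j * (F t)⁻¹ k r
  | _, _, _ => 0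

/-- The Levi-Civita connection `g(∇_{e_a} e_b, e_d)` (Koszul formula in an orthonormal frame). -/
noncomputable def connection (F : ℝ → Matrix (Fin 3) (Fin 3) ℝ) (t : ℝ) (a b d : Dir) : ℝ :=
  (bracket F t a b d - bracket F t b d a + bracket F t d a b) / 2

/-- The curvature tensor `g(R(e_a, e_b) e_f, e_d)`, `R(x, y) z = ∇_x ∇_y z - ∇_y ∇_x z - ∇_[x, y] z` (the coefficients
depend only on `t`, so only `e_none = ∂_t` differentiates them). -/
noncomputable def curvature (F : ℝ → Matrix (Fin 3) (Fin 3) ℝ) (t : ℝ) (a b f d : Dir) : ℝ :=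
  (if a = none then deriv (fun s => connection F s b f d) t else 0) -
    (if b = none then deriv (fun s => connection F s a f d) t else 0) +
    ∑ e, (connection F t b f e * connection F t a e d - connection F t a f e * connection F t b e d -
      bracket F t a b e * connection F t e f d)

/-- The metric is Ricci-flat on `(t0, ∞) × SU(2)`. -/
def RicciFlat (t0 : ℝ) (F : ℝ → Matrix (Fin 3) (Fin 3) ℝ) : Prop :=
  ∀ t, t0 < t → ∀ b f, ∑ a, curvature F t a b f a = 0

/-- The curvature operator vanishes on `Λ⁻`, the two-forms spanned by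
`e_none ∧ e_0 - e_1 ∧ e_2`, `e_none ∧ e_1 - e_2 ∧ e_0`, `e_none ∧ e_2 - e_0 ∧ e_1`. -/
def HalfFlat (t0 : ℝ) (F : ℝ → Matrix (Fin 3) (Fin 3) ℝ) : Prop :=
  ∀ t, t0 < t → ∀ a b, curvature F t a b none (some 0) = curvature F t a b (some 1) (some 2) ∧
    curvature F t a b none (some 1) = curvature F t a b (some 2) (some 0) ∧
    curvature F t a b none (some 2) = curvature F t a b (some 0) (some 1)

/-- The metric `dt² + h(t)` is asymptotic, with first derivatives, to the flat metric `dt² + t² (round metric)` of `ℝ⁴`: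
`h(t) / t² → 1` and `h'(t) / t → 2` (both hold for metrics which are asymptotically locally Euclidean of any order). -/
structure IsALE (h : ℝ → Matrix (Fin 3) (Fin 3) ℝ) : Prop where
  zeroth : ∀ p q, Tendsto (fun t => h t p q / t ^ 2) atTop (𝓝 (if p = q then 1 else 0))
  first : ∀ p q, Tendsto (fun t => deriv (fun s => h s p q) t / t) atTop (𝓝 (if p = q then 2 else 0))

/-- Every metric `dt² + h(t)` on `(t0, ∞) × SU(2)` with left-invariant metrics `h(t)` has orthonormal frames, and if it is
Ricci-flat and asymptotically (locally) Euclidean then its curvature operator vanishes on `Λ⁻`. -/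
theorem result (t0 : ℝ) (h : ℝ → Matrix (Fin 3) (Fin 3) ℝ) (hh : IsMetric t0 h) :
    (∃ F, IsFrame t0 h F) ∧ ∀ F, IsFrame t0 h F → RicciFlat t0 F → IsALE h → HalfFlat t0 F := by
  constructor
  · exact ⟨fun t => Pool.Agent.Lib.Helper34.NK.gs (h t), {
      orthonormal := fun t ht => Pool.Agent.Lib.Helper34.NK.gs_orth (hh.posDef t ht)
      oriented := fun t ht => Pool.Agent.Lib.Helper34.NK.gs_det (hh.posDef t ht)
      smooth := fun i j => Pool.Agent.Lib.Helper34.NK.gs_smooth hh.smooth (fun t ht => hh.posDef t ht) i j }⟩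
  · intro F hF hric hale t ht a b
    have e1 := Pool.Agent.Lib.Helper34.NK.halfFlat_of_ale (t0 := t0) (h := h) (F := F) ⟨hF.oriented, hF.smooth⟩ hF.orthonormal
      hric hale.zeroth hale.first ht
    exact ⟨(e1 a b 0).symm, (e1 a b 1).symm, (e1 a b 2).symm⟩

end Pool.Agent.Results.MP_1e1b94_gt.CohomogeneityOne
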