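import Pool.Agent.Lib.H12N.Q9

/-!
# MP_1e1b94 (Nakajima's conjecture): `det W⁻ ≥ 0` forces a double eigenvalue

Notation as in `Lib/H12N/Defs.lean`: `M` is a smooth four-manifold whose charts are oriented
(`Oriented 4 M`), `g` a Ricci-flat metric (`IsEinstein g 0`) whose curvature tends to zero at infinity
(`CurvDecay g`; every ALE metric has this property), and `Wf g p y e` is the `3 × 3` matrix of `W⁻` (the
curvature operator on `Λ⁻`) in the positively oriented orthonormal frame `e` at the point `y` of the chart
at `p` (`OFr g p y e`).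

If `det W⁻ ≥ 0` everywhere (zeros of `W⁻` are allowed), then at every point the eigenvalues of `W⁻` are
`2 l, -l, -l` with `l ≥ 0` depending on the point. In particular, if `0 ≤ det W⁻` everywhere and
`det W⁻ < |W⁻|³ / (3 √6)` wherever `W⁻ ≠ 0`, then `W⁻ = 0`.

Method: maximum principle for `(6 t² - N)⁶ / (N⁴ (26 N - 50 t²))`, where `N = |W⁻|²` and `-t` is the
smallest eigenvalue; the first derivatives of `W⁻` are controlled by the second Bianchi identity.
-/

set_option autoImplicit false

open scoped ContDiff Manifold

namespace Pool.Agent.Results.MP_1e1b94_gt.LowerPinching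

open H31R H79G H60E H12N

/-- A Ricci-flat four-manifold whose curvature tends to zero at infinity and with `det W⁻ ≥ 0` everywhere:
the characteristic polynomial of `W⁻` is `(X - 2 l) (X + l)²` at every point. -/
theorem result {M : Type} [TopologicalSpace M] [ChartedSpace (EE 4) M] [IsManifold (𝓡 4) ∞ M]
    (ho : Oriented 4 M) (g : Ch.Metric 4 M) (hE : IsEinstein g 0) (hd : CurvDecay g)
    (hp : ∀ (p : M) (y : EE 4) (e : WW 4), OFr g p y e → 0 ≤ (Wf g p y e).det) :
    ∀ (p : M) (y : EE 4) (e : WW 4), OFr g p y e → ∃ l : ℝ, 0 ≤ l ∧ (Wf g p y e).charpoly =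
      (Polynomial.X - Polynomial.C (2 * l)) * (Polynomial.X + Polynomial.C l) ^ 2 :=
  fun _ _ _ h => main2 ho g hE hd hp h

end Pool.Agent.Results.MP_1e1b94_gt.LowerPinching
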