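import Pool.Agent.Lib.H12J.Main

/-!
# MP_1e1b94 (Nakajima's conjecture): all Ricci-flat ALE four-manifolds with `det W⁻ ≥ 0`

Notation as in `Lib/H12N/Defs.lean`, `Lib/H12H/Defs.lean` and `Lib/H12I/Defs.lean`: `M` is a connected smooth
four-manifold whose charts are oriented (`Oriented 4 M`), `g` a Ricci-flat metric (`IsEinstein g 0`), `Wf g p y e`
and `Wpf g p y e` are the `3 × 3` matrices of `W⁻` and `W⁺` (the curvature operator on `Λ⁻` and `Λ⁺`) in the
positively oriented orthonormal frame `e` at the point `y` of the chart at `p` (`OFr g p y e`).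
`GEnd g Γ R Φ G`: `g` is ALE with the nontrivial finite group `Γ`: `Φ` is the composition of the projection
`{|x| > R} → {|x| > R} / Γ` and of the coordinates at infinity, so `Φ x = Φ y` iff `y ∈ Γ x`.

Assume `det W⁻ ≥ 0` everywhere (zeros of `W⁻` are allowed). Then `W⁻ = 0` or `W⁺ = 0`: `g` is self-dual,
Nakajima's conjecture holds. Nothing is assumed about the topology of `M` or the group `Γ` (for `Γ = 1` the
theorem is classical: `M` is flat).

Method. By the maximum principle (`Lib/H12N`, `Lib/H12H`) `W⁻` vanishes identically or is nowhere zero and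
`W⁻ = l (3 j jᵀ - 1)`. Assume the second, let `f = l ^ (-1/3)`, and first let `J = J(j)` be defined globally
(`Lib/H12I`). Then `f` tends to infinity, `K = J ∇f` is a Killing field, asymptotic to a linear one with matrix
`A`, `A² = -a²`, and its flow has the period `T = 2π/a`. So the critical points of `f` have integer weights
`k₁`, `k₂` with `a (k₁ + k₂) = 1/f²`. The function `h = (|∇f|² + 1/f)/f` satisfies
`|∇f|² Δh = 2 ⟨∇|∇f|², ∇h⟩` and tends to `2 a`. By the maximum principle `k₁ + k₂` is `1` or `2` on the highest
critical level of `f`. If it is `1`, the curves of fixed points of `φ (T/q)` which start at the critical points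
(mountain pass, isotropy groups) are compared with the elements of `Γ` at infinity: a contradiction. If it is `2`,
then `h = 2a`, and this gives `W⁺ = 0`. In general (`Lib/H12J`) `J` is defined on a double cover `N` of `M`. If `N`
has one end, its group is not trivial (otherwise `K` would be asymptotically constant) and the first case applies; if
it has two ends, the flow of `K` is periodic, and the connectedness of the superlevel sets of `f` (no local maximum,
even indices) is a contradiction.
-/

set_option autoImplicit false

open scoped ContDiff Manifold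

namespace Pool.Agent.Results.MP_1e1b94_gt.SelfDualDet

open H31R H79G H60E H12N H12H H12I

/-- Ricci-flat ALE four-manifolds with `det W⁻ ≥ 0`: `W⁻ = 0` or `W⁺ = 0`. -/
theorem result {M : Type} [TopologicalSpace M] [T2Space M] [ConnectedSpace M]
    [ChartedSpace (EE 4) M] [IsManifold (𝓡 4) ∞ M] (ho : Oriented 4 M) (g : Ch.Metric 4 M)
    (hE : IsEinstein g 0) {Γ : Subgroup (Matrix.orthogonalGroup (Fin 4) ℝ)} {R : ℝ}
    {Φ : EE 4 → M} {G : EE 4 → Matrix (Fin 4) (Fin 4) ℝ} (hend : GEnd g Γ R Φ G)
    (hd : ∀ (p : M) (y : EE 4) (e : WW 4), OFr g p y e → 0 ≤ (Wf g p y e).det) :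
    (∀ (p : M) (y : EE 4) (e : WW 4), OFr g p y e → Wf g p y e = 0) ∨
      ∀ (p : M) (y : EE 4) (e : WW 4), OFr g p y e → Wpf g p y e = 0 :=
  H12J.main ho g hE hend hd

end Pool.Agent.Results.MP_1e1b94_gt.SelfDualDet
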