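import Pool.Agent.Lib.H12N.S5

/-!
# MP_1e1b94 (Nakajima's conjecture): an upper bound for `det W⁻` forces self-duality

`M` is a smooth four-manifold, `g` a Riemannian metric (`Ch.Metric 4 M`; `g.mat p y` is its matrix at the
point `y` of the chart at `p`, `Ch.jacobian p q y` the Jacobian matrix of the change of charts).

* `H12N.Oriented 4 M`: all changes of charts have a positive Jacobian determinant.
* `H60E.IsEinstein g 0`: the metric is Ricci-flat.
* `H12N.OFr g p y e`: `e` is a positively oriented orthonormal frame at the point `y` of the chart at `p`.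
* `H12N.CurvDecay g`: the curvature tensor tends to zero at infinity. (Every ALE metric has this property;
  completeness, connectedness and a particular shape of the end are not assumed.)
* `H12N.Wf g p y e`: the `3 × 3` matrix of the curvature operator on `Λ⁻` in the basis
  `e₀∧e₁ - e₂∧e₃`, `e₀∧e₂ + e₁∧e₃`, `e₀∧e₃ - e₁∧e₂`, that is, of `W⁻`. It is symmetric and trace-free; with
  `|W⁻|² = tr (W⁻ W⁻)` one always has `det W⁻ ≤ |W⁻|³ / (3 √6)`.

If `det W⁻ < |W⁻|³ / (6 √3)` wherever `W⁻ ≠ 0` (in terms of the eigenvalues `λ₁ ≥ λ₂ ≥ λ₃` of `W⁻`: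
`λ₃² + 2 λ₁ λ₂ > 0`), then `W⁻ = 0` everywhere. The case `det W⁻ ≤ 0` is the subharmonicity of `|W⁻|²`.

Method: the smallest eigenvalue of `W⁻` is the infimum of the function `W⁻₀₀` on the positively oriented
orthonormal frames; it is attained, and there the equation `ΔW = -2 (W² + 2 adj W)` and the second
derivative test along horizontal and vertical fields contradict the pinching.
-/

set_option autoImplicit false

open scoped ContDiff Manifold

namespace Pool.Agent.Results.MP_1e1b94_gt.UpperPinching

open H31R H79G H60E H12N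

/-- A Ricci-flat four-manifold whose curvature tends to zero at infinity and whose `W⁻` satisfies
`det W⁻ < |W⁻|³ / (6 √3)` wherever it does not vanish has `W⁻ = 0`. -/
theorem result {M : Type} [TopologicalSpace M] [ChartedSpace (EE 4) M] [IsManifold (𝓡 4) ∞ M]
    (ho : Oriented 4 M) (g : Ch.Metric 4 M) (hE : IsEinstein g 0) (hd : CurvDecay g)
    (hp : ∀ (p : M) (y : EE 4) (e : WW 4), OFr g p y e → Wf g p y e ≠ 0 →
      6 * √3 * (Wf g p y e).det < √((Wf g p y e * Wf g p y e).trace) ^ 3) :
    ∀ (p : M) (y : EE 4) (e : WW 4), OFr g p y e → Wf g p y e = 0 :=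
  fun _ _ _ h => main ho g hE hd hp h

end Pool.Agent.Results.MP_1e1b94_gt.UpperPinching
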